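import Pool.Agent.V1186.HB

set_option autoImplicit false

namespace Pool.Agent.Results.MP_8c4df5_an.NoSortingPattern

/-- The class `F_{μ,L}` of differentiable, `μ`-strongly convex and `L`-smooth functions of one
real variable (`f'` is `L`-Lipschitz). -/
def SmoothStrong (μ L : ℝ) : Set (ℝ → ℝ) :=
  {f | Differentiable ℝ f ∧ StrongConvexOn Set.univ μ f ∧
    ∀ x y : ℝ, |deriv f x - deriv f y| ≤ L * |x - y|}

/-- `x` (indexed modulo `K`) is a `K`-cycle of the heavy-ball method with step size `γ` and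
momentum `β` on `f`: the entries are not all equal and, indices being read modulo `K`,
`x_{i+1} = x_i - γ f'(x_i) + β (x_i - x_{i-1})` for every `i`. -/
structure IsCycle (K : ℕ) (γ β : ℝ) (f : ℝ → ℝ) (x : ZMod K → ℝ) : Prop where
  step : ∀ i : ZMod K, x (i + 1) = x i - γ * deriv f (x i) + β * (x i - x (i - 1))
  nonconst : ∃ i j : ZMod K, x i ≠ x j

/-- The rank function `ρ`: `ρ(0) = 0`, `ρ(j) = 2j - 1` for `1 ≤ j ≤ ⌊K/2⌋` and
`ρ(j) = 2(K - j)` for `⌊K/2⌋ < j ≤ K - 1`. -/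
def rho (K j : ℕ) : ℕ := if j = 0 then 0 else if j ≤ K / 2 then 2 * j - 1 else 2 * (K - j)

/-- The tuple `x` has pattern `ρ`: `x_i ≤ x_j` whenever `ρ(i) < ρ(j)`. -/
def HasPattern (K : ℕ) (x : ZMod K → ℝ) : Prop :=
  ∀ i j : ZMod K, rho K i.val < rho K j.val → x i ≤ x j

/-! ### Realising a cycle -/

/-- A tuple of distinct points is a cycle on some function of the class as soon as the gradients
prescribed by the method have all their difference quotients in `[μ, L]`. -/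
lemma realise {K : ℕ} {μ L γ β : ℝ} (hμ : 0 < μ) (hμL : μ ≤ L) (hγ : 0 < γ)
    (x : ZMod K → ℝ) (hx : Function.Injective x)
    (h : ∀ i j : ZMod K, x i ≤ x j →
      μ * γ * (x j - x i) ≤ ((1 + β) * x j - x (j + 1) - β * x (j - 1))
          - ((1 + β) * x i - x (i + 1) - β * x (i - 1)) ∧
      ((1 + β) * x j - x (j + 1) - β * x (j - 1))
          - ((1 + β) * x i - x (i + 1) - β * x (i - 1)) ≤ L * γ * (x j - x i)) :
    ∃ f ∈ SmoothStrong μ L,
      ∀ i : ZMod K, x (i + 1) = x i - γ * deriv f (x i) + β * (x i - x (i - 1)) := by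
  set G : ZMod K → ℝ := fun i => ((1 + β) * x i - x (i + 1) - β * x (i - 1)) / γ with hG
  have hext : ∀ i, Function.extend x G 0 (x i) = G i := fun i => hx.extend_apply G 0 i
  obtain ⟨f, hf, hsl, heq⟩ := V1186.HB.interp hμL (Set.range x) (Function.extend x G 0) (by
    rintro _ ⟨i, rfl⟩ _ ⟨j, rfl⟩ hij
    rw [hext, hext]
    obtain ⟨h1, h2⟩ := h i j hij
    simp only [hG]
    rw [← sub_div]
    constructor
    · rw [le_div_iff₀ hγ]; linarith
    · rw [div_le_iff₀ hγ]; linarith)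
  refine ⟨f, ⟨hf, V1186.HB.strongConvex_of_slopes hf (fun a b hab => (hsl a b hab).1), ?_⟩, ?_⟩
  · have key : ∀ a b : ℝ, a ≤ b → |deriv f a - deriv f b| ≤ L * |a - b| := by
      intro a b hab
      have h0 : 0 ≤ μ * (b - a) := mul_nonneg hμ.le (by linarith)
      obtain ⟨h1, h2⟩ := hsl a b hab
      rw [abs_sub_comm, abs_sub_comm a b, abs_of_nonneg (by linarith : 0 ≤ b - a),
        abs_of_nonneg (by linarith : 0 ≤ deriv f b - deriv f a)]
      exact h2
    intro a b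
    rcases le_total a b with hab | hab
    · exact key a b hab
    · rw [abs_sub_comm, abs_sub_comm a b]; exact key b a hab
  · intro i
    rw [heq (x i) ⟨i, rfl⟩, hext]
    simp only [hG]
    field_simp
    ring

/-- Upper and lower slope bounds for the derivative of a function of the class. -/
lemma slopes {μ L : ℝ} {f : ℝ → ℝ} (hf : f ∈ SmoothStrong μ L) {a b : ℝ} (hab : a ≤ b) :
    μ * (b - a) ≤ deriv f b - deriv f a ∧ deriv f b - deriv f a ≤ L * (b - a) := by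
  refine ⟨V1186.HB.slopes_of_strongConvex hf.1 hf.2.1 a b hab, ?_⟩
  have := hf.2.2 b a
  rw [abs_of_nonneg (by linarith : 0 ≤ b - a)] at this
  exact (le_abs_self _).trans this

/-- Slope bounds in the scaled form used below: `G = γ f'`. -/
lemma scaled {μ L γ q Q : ℝ} {f : ℝ → ℝ} (hf : f ∈ SmoothStrong μ L) (hγ : 0 < γ)
    (hq : q ≤ γ * μ) (hQ : γ * L ≤ Q) {a b : ℝ} (hab : a ≤ b) :
    q * (b - a) ≤ γ * deriv f b - γ * deriv f a ∧
      γ * deriv f b - γ * deriv f a ≤ Q * (b - a) := by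
  obtain ⟨h1, h2⟩ := slopes hf hab
  have h0 : 0 ≤ b - a := by linarith
  constructor
  · calc q * (b - a) ≤ (γ * μ) * (b - a) := mul_le_mul_of_nonneg_right hq h0
      _ = γ * (μ * (b - a)) := by ring
      _ ≤ γ * (deriv f b - deriv f a) := mul_le_mul_of_nonneg_left h1 hγ.le
      _ = _ := by ring
  · calc γ * deriv f b - γ * deriv f a = γ * (deriv f b - deriv f a) := by ring
      _ ≤ γ * (L * (b - a)) := mul_le_mul_of_nonneg_left h2 hγ.le
      _ = (γ * L) * (b - a) := by ring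
      _ ≤ Q * (b - a) := mul_le_mul_of_nonneg_right hQ h0

/-! ### Seven-cycles -/

lemma forall7 {P : ZMod 7 → Prop} (h0 : P 0) (h1 : P 1) (h2 : P 2) (h3 : P 3) (h4 : P 4)
    (h5 : P 5) (h6 : P 6) : ∀ i, P i := by
  intro i; fin_cases i <;> assumption

/-- The first seven-cycle. -/
def xA : ZMod 7 → ℝ := ![60, 32, 0, 43, 54, 7, 17]

/-- The second seven-cycle. -/
def xB : ZMod 7 → ℝ := ![81, 13, 55, 47, 19, 78, 0]

lemma xA_inj : Function.Injective xA := by
  intro i j h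
  fin_cases i <;> fin_cases j <;> first | rfl | (exfalso; revert h; simp [xA])

lemma xB_inj : Function.Injective xB := by
  intro i j h
  fin_cases i <;> fin_cases j <;> first | rfl | (exfalso; revert h; simp [xB])

/-- Scaled gradients of the cycle `xA`. -/
noncomputable def HA : ZMod 7 → ℝ := ![921/16, 51/4, -65, 297/16, 873/16, -677/16, -289/8]

lemma HA_eq : ∀ i : ZMod 7,
    (1 + 11/16 : ℝ) * xA i - xA (i + 1) - 11/16 * xA (i - 1) = HA i := by
  apply forall7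
  · change (1 + 11/16 : ℝ) * 60 - 32 - 11/16 * 17 = 921/16
    norm_num
  · change (1 + 11/16 : ℝ) * 32 - 0 - 11/16 * 60 = 51/4
    norm_num
  · change (1 + 11/16 : ℝ) * 0 - 43 - 11/16 * 32 = -65
    norm_num
  · change (1 + 11/16 : ℝ) * 43 - 54 - 11/16 * 0 = 297/16
    norm_num
  · change (1 + 11/16 : ℝ) * 54 - 7 - 11/16 * 43 = 873/16
    norm_num
  · change (1 + 11/16 : ℝ) * 7 - 17 - 11/16 * 54 = -677/16
    norm_num
  · change (1 + 11/16 : ℝ) * 17 - 60 - 11/16 * 7 = -289/8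
    norm_num

/-- Scaled gradients of the cycle `xB`. -/
noncomputable def HB : ZMod 7 → ℝ := ![1409/10, -516/5, 229/5, 104/5, -421/5, 1311/10, -756/5]

lemma HB_eq : ∀ i : ZMod 7,
    (1 + 9/10 : ℝ) * xB i - xB (i + 1) - 9/10 * xB (i - 1) = HB i := by
  apply forall7
  · change (1 + 9/10 : ℝ) * 81 - 13 - 9/10 * 0 = 1409/10
    norm_num
  · change (1 + 9/10 : ℝ) * 13 - 55 - 9/10 * 81 = -516/5
    norm_num
  · change (1 + 9/10 : ℝ) * 55 - 47 - 9/10 * 13 = 229/5
    norm_num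
  · change (1 + 9/10 : ℝ) * 47 - 19 - 9/10 * 55 = 104/5
    norm_num
  · change (1 + 9/10 : ℝ) * 19 - 78 - 9/10 * 47 = -421/5
    norm_num
  · change (1 + 9/10 : ℝ) * 78 - 0 - 9/10 * 19 = 1311/10
    norm_num
  · change (1 + 9/10 : ℝ) * 0 - 81 - 9/10 * 78 = -756/5
    norm_num

lemma pairsA : ∀ i j : ZMod 7, xA i ≤ xA j →
    99/200 * (xA j - xA i) ≤ HA j - HA i ∧ HA j - HA i ≤ 33/10 * (xA j - xA i) := by
  intro i j
  fin_cases i <;> fin_cases j <;> norm_num [xA, HA, Matrix.cons_val_succ]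

lemma pairsB : ∀ i j : ZMod 7, xB i ≤ xB j →
    25/8 * (xB j - xB i) ≤ HB j - HB i ∧ HB j - HB i ≤ 15/4 * (xB j - xB i) := by
  intro i j
  fin_cases i <;> fin_cases j <;> norm_num [xB, HB, Matrix.cons_val_succ]

/-- No seven-cycle with pattern `ρ` for the tuning A. -/
lemma noPatternA {μ L γ : ℝ} (hγ : 0 < γ) (hγL : γ * L = 33/10) (hμ : 0 ≤ γ * μ)
    {f : ℝ → ℝ} (hf : f ∈ SmoothStrong μ L) {x : ZMod 7 → ℝ} (hc : IsCycle 7 γ (11/16) f x)
    (hp : HasPattern 7 x) : False := by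
  have o01 : x 0 ≤ x 1 := hp 0 1 (by decide)
  have o16 : x 1 ≤ x 6 := hp 1 6 (by decide)
  have o62 : x 6 ≤ x 2 := hp 6 2 (by decide)
  have o25 : x 2 ≤ x 5 := hp 2 5 (by decide)
  have o53 : x 5 ≤ x 3 := hp 5 3 (by decide)
  have o34 : x 3 ≤ x 4 := hp 3 4 (by decide)
  have e0 : x 1 = x 0 - γ * deriv f (x 0) + (11/16) * (x 0 - x 6) := hc.step 0
  have e1 : x 2 = x 1 - γ * deriv f (x 1) + (11/16) * (x 1 - x 0) := hc.step 1
  have e2 : x 3 = x 2 - γ * deriv f (x 2) + (11/16) * (x 2 - x 1) := hc.step 2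
  have e3 : x 4 = x 3 - γ * deriv f (x 3) + (11/16) * (x 3 - x 2) := hc.step 3
  have e4 : x 5 = x 4 - γ * deriv f (x 4) + (11/16) * (x 4 - x 3) := hc.step 4
  have e5 : x 6 = x 5 - γ * deriv f (x 5) + (11/16) * (x 5 - x 4) := hc.step 5
  have e6 : x 0 = x 6 - γ * deriv f (x 6) + (11/16) * (x 6 - x 5) := hc.step 6
  obtain ⟨l01, u01⟩ := scaled (q := 0) (Q := 33/10) hf hγ hμ hγL.le o01
  obtain ⟨l16, u16⟩ := scaled (q := 0) (Q := 33/10) hf hγ hμ hγL.le o16
  obtain ⟨l62, u62⟩ := scaled (q := 0) (Q := 33/10) hf hγ hμ hγL.le o62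
  obtain ⟨l25, u25⟩ := scaled (q := 0) (Q := 33/10) hf hγ hμ hγL.le o25
  obtain ⟨l53, u53⟩ := scaled (q := 0) (Q := 33/10) hf hγ hμ hγL.le o53
  obtain ⟨l34, u34⟩ := scaled (q := 0) (Q := 33/10) hf hγ hμ hγL.le o34
  have hle : x 4 ≤ x 0 := by linarith
  obtain ⟨i, j, hij⟩ := hc.nonconst
  apply hij
  have all : ∀ i : ZMod 7, x i = x 0 := by
    apply forall7 <;> linarith
  rw [all i, all j]

/-- No seven-cycle with pattern `ρ` for the tuning B. -/
lemma noPatternB {μ L γ : ℝ} (hγ : 0 < γ) (hγL : γ * L = 15/4) (hμ : 9/16 ≤ γ * μ)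
    {f : ℝ → ℝ} (hf : f ∈ SmoothStrong μ L) {x : ZMod 7 → ℝ} (hc : IsCycle 7 γ (9/10) f x)
    (hp : HasPattern 7 x) : False := by
  have o01 : x 0 ≤ x 1 := hp 0 1 (by decide)
  have o16 : x 1 ≤ x 6 := hp 1 6 (by decide)
  have o62 : x 6 ≤ x 2 := hp 6 2 (by decide)
  have o25 : x 2 ≤ x 5 := hp 2 5 (by decide)
  have o53 : x 5 ≤ x 3 := hp 5 3 (by decide)
  have o34 : x 3 ≤ x 4 := hp 3 4 (by decide)
  have e0 : x 1 = x 0 - γ * deriv f (x 0) + (9/10) * (x 0 - x 6) := hc.step 0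
  have e1 : x 2 = x 1 - γ * deriv f (x 1) + (9/10) * (x 1 - x 0) := hc.step 1
  have e2 : x 3 = x 2 - γ * deriv f (x 2) + (9/10) * (x 2 - x 1) := hc.step 2
  have e3 : x 4 = x 3 - γ * deriv f (x 3) + (9/10) * (x 3 - x 2) := hc.step 3
  have e4 : x 5 = x 4 - γ * deriv f (x 4) + (9/10) * (x 4 - x 3) := hc.step 4
  have e5 : x 6 = x 5 - γ * deriv f (x 5) + (9/10) * (x 5 - x 4) := hc.step 5
  have e6 : x 0 = x 6 - γ * deriv f (x 6) + (9/10) * (x 6 - x 5) := hc.step 6
  obtain ⟨l01, u01⟩ := scaled (q := 9/16) (Q := 15/4) hf hγ hμ hγL.le o01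
  obtain ⟨l16, u16⟩ := scaled (q := 9/16) (Q := 15/4) hf hγ hμ hγL.le o16
  obtain ⟨l62, u62⟩ := scaled (q := 9/16) (Q := 15/4) hf hγ hμ hγL.le o62
  obtain ⟨l25, u25⟩ := scaled (q := 9/16) (Q := 15/4) hf hγ hμ hγL.le o25
  obtain ⟨l53, u53⟩ := scaled (q := 9/16) (Q := 15/4) hf hγ hμ hγL.le o53
  obtain ⟨l34, u34⟩ := scaled (q := 9/16) (Q := 15/4) hf hγ hμ hγL.le o34
  have hle : x 4 ≤ x 0 := by linarith
  obtain ⟨i, j, hij⟩ := hc.nonconst
  apply hij
  have all : ∀ i : ZMod 7, x i = x 0 := by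
    apply forall7 <;> linarith
  rw [all i, all j]


/-- No cycle with pattern `ρ`, of any length, when `γ μ > 2 + β` and `0 < β ≤ 1`. -/
lemma noPatternGen {μ L γ β : ℝ} (hγ : 0 < γ) (hμ : 0 < μ) (hβ0 : 0 < β) (hβ1 : β ≤ 1)
    (hq : 2 + β < γ * μ) {K : ℕ} (hK : 3 ≤ K)
    {f : ℝ → ℝ} (hf : f ∈ SmoothStrong μ L) {x : ZMod K → ℝ} (hc : IsCycle K γ β f x)
    (hp : HasPattern K x) : False := by
  obtain ⟨n, rfl⟩ : ∃ n, K = n + 3 := ⟨K - 3, by omega⟩
  obtain ⟨xs, hxs⟩ := V1186.HB.exists_crit hμ (fun a b hab => slopes hf hab)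
  obtain ⟨i, j, hij⟩ := hc.nonconst
  apply hij
  have hv1 : (1 : ZMod (n + 3)).val = 1 := ZMod.val_one'' (by omega)
  have hvm : (-1 : ZMod (n + 3)).val = n + 2 := ZMod.val_neg_one (n + 2)
  have r0 : rho (n + 3) 0 = 0 := rfl
  have r1 : rho (n + 3) 1 = 1 := by
    unfold rho; rw [if_neg (by omega), if_pos (by omega)]
  have rm : rho (n + 3) (n + 2) = 2 := by
    unfold rho; rw [if_neg (by omega), if_neg (by omega)]; omega
  have hm := fun a b (hab : a ≤ b) => scaled (q := γ * μ) (Q := γ * L) hf hγ le_rfl le_rfl hab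
  refine V1186.HB.no_sorted (xs := xs) x (fun i => γ * deriv f (x i)) hβ0 hβ1 hq hc.step
    (fun i j hij => (hm _ _ hij).1) ?_ ?_ ?_ ?_ ?_ i j
  · intro i hi
    have := (hm _ _ hi).1
    rw [hxs] at this; linarith
  · intro i hi
    have := (hm _ _ hi).1
    rw [hxs] at this; linarith
  · apply hp
    rw [ZMod.val_zero, hv1, r0, r1]; omega
  · apply hp
    rw [hv1, hvm, r1, rm]; omega
  · intro i h0 h1 hm1
    apply hp
    rw [hvm, rm]
    have hlt : i.val < n + 3 := ZMod.val_lt i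
    have n0 : i.val ≠ 0 := fun h => h0 ((ZMod.val_eq_zero i).mp h)
    have n1 : i.val ≠ 1 := fun h => h1 (ZMod.val_injective _ (by rw [h, hv1]))
    have nm : i.val ≠ n + 2 := fun h => hm1 (ZMod.val_injective _ (by rw [h, hvm]))
    unfold rho
    rw [if_neg n0]
    split_ifs <;> omega

/-- **The sorting pattern is not universal.** For all `0 < μ ≤ L` there are a length
`K ∈ {5, 7}`, a step size `γ > 0` and a momentum `0 < β ≤ 1` (with `β < 1` if `μ < L`), inside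
the region `γ L < 2 (1 + β)` in which the method converges on every quadratic function of the
class when `β < 1`, such that the heavy-ball method has a `K`-cycle of minimal period `K` on some
function of `F_{μ,L}`, but no `K`-cycle on any function of `F_{μ,L}` has pattern `ρ`. -/
theorem result : ∀ μ L : ℝ, 0 < μ → μ ≤ L → ∃ (K : ℕ) (γ β : ℝ),
    (K = 5 ∨ K = 7) ∧ 0 < γ ∧ 0 < β ∧ β ≤ 1 ∧ (μ < L → β < 1) ∧ γ * L < 2 * (1 + β) ∧
    (∃ f ∈ SmoothStrong μ L, ∃ x : ZMod K → ℝ, IsCycle K γ β f x ∧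
      ∀ m : ℕ, 0 < m → m < K → ∃ i : ZMod K, x (i + (m : ZMod K)) ≠ x i) ∧
    ¬ ∃ f ∈ SmoothStrong μ L, ∃ x : ZMod K → ℝ, IsCycle K γ β f x ∧ HasPattern K x := by
  intro μ L hμ hμL
  have hL : 0 < L := hμ.trans_le hμL
  have inj_period : ∀ (K : ℕ) (_ : 3 ≤ K) (x : ZMod K → ℝ), Function.Injective x →
      ∀ m : ℕ, 0 < m → m < K → ∃ i : ZMod K, x (i + (m : ZMod K)) ≠ x i := by
    intro K hK x hx m h0 h1
    refine ⟨0, fun h => ?_⟩
    have h2 := hx h
    rw [zero_add] at h2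
    have h3 := congrArg ZMod.val h2
    rw [ZMod.val_natCast_of_lt h1, ZMod.val_zero] at h3
    omega
  rcases le_or_gt (20 * μ) (3 * L) with h1 | h1
  · -- `μ / L ≤ 3 / 20`
    have hγ : 0 < 33 / 10 / L := by positivity
    have hγL : 33 / 10 / L * L = 33 / 10 := by field_simp
    have hγμ : 33 / 10 / L * μ ≤ 99 / 200 := by
      rw [div_mul_eq_mul_div, div_le_iff₀ hL]; linarith
    refine ⟨7, 33 / 10 / L, 11 / 16, Or.inr rfl, hγ, by norm_num, by norm_num,
      fun _ => by norm_num, by rw [hγL]; norm_num, ?_, ?_⟩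
    · obtain ⟨f, hf, hstep⟩ := realise hμ hμL hγ xA xA_inj (by
        intro i j hij
        rw [HA_eq, HA_eq]
        obtain ⟨p1, p2⟩ := pairsA i j hij
        have h0 : 0 ≤ xA j - xA i := by linarith
        constructor
        · refine le_trans ?_ p1
          apply mul_le_mul_of_nonneg_right _ h0
          linarith
        · rw [mul_comm L, hγL]; exact p2)
      exact ⟨f, hf, xA, ⟨hstep, 0, 1, by
        change (60 : ℝ) ≠ 32; norm_num⟩, inj_period 7 (by norm_num) xA xA_inj⟩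
    · rintro ⟨f, hf, x, hc, hp⟩
      exact noPatternA hγ hγL (by positivity) hf hc hp
  rcases le_or_gt (6 * μ) (5 * L) with h2 | h2
  · -- `3 / 20 < μ / L ≤ 5 / 6`
    have hγ : 0 < 15 / 4 / L := by positivity
    have hγL : 15 / 4 / L * L = 15 / 4 := by field_simp
    have hγμ : 15 / 4 / L * μ ≤ 25 / 8 := by
      rw [div_mul_eq_mul_div, div_le_iff₀ hL]; linarith
    have hγμ' : 9 / 16 ≤ 15 / 4 / L * μ := by
      rw [div_mul_eq_mul_div, le_div_iff₀ hL]; linarith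
    refine ⟨7, 15 / 4 / L, 9 / 10, Or.inr rfl, hγ, by norm_num, by norm_num,
      fun _ => by norm_num, by rw [hγL]; norm_num, ?_, ?_⟩
    · obtain ⟨f, hf, hstep⟩ := realise hμ hμL hγ xB xB_inj (by
        intro i j hij
        rw [HB_eq, HB_eq]
        obtain ⟨p1, p2⟩ := pairsB i j hij
        have h0 : 0 ≤ xB j - xB i := by linarith
        constructor
        · refine le_trans ?_ p1
          apply mul_le_mul_of_nonneg_right _ h0
          linarith
        · rw [mul_comm L, hγL]; exact p2)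
      exact ⟨f, hf, xB, ⟨hstep, 0, 1, by
        change (81 : ℝ) ≠ 13; norm_num⟩, inj_period 7 (by norm_num) xB xB_inj⟩
    · rintro ⟨f, hf, x, hc, hp⟩
      exact noPatternB hγ hγL hγμ' hf hc hp
  · -- `5 / 6 < μ / L`
    have g1 := V1186.HB.golden_lb
    have g2 := V1186.HB.golden_ub
    have gsq := Real.goldenRatio_sq
    set g : ℝ := Real.goldenRatio with hg
    have hβ0 : 0 < μ / L := by positivity
    have hβ1 : μ / L ≤ 1 := (div_le_one hL).mpr hμL
    have hβ56 : 5 / 6 < μ / L := by rw [lt_div_iff₀ hL]; linarith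
    have hγ : 0 < (2 + g) / L := by positivity
    have hγL : (2 + g) / L * L = 2 + g := by field_simp
    have hγμ : (2 + g) / L * μ = (2 + g) * (μ / L) := by ring
    refine ⟨5, (2 + g) / L, μ / L, Or.inl rfl, hγ, hβ0, hβ1,
      fun h => (div_lt_one hL).mpr h, by rw [hγL]; linarith, ?_, ?_⟩
    · obtain ⟨f, hf, hstep⟩ := realise (β := μ / L) hμ hμL hγ (V1186.HB.x5 g)
        (V1186.HB.x5_inj (by linarith)) (by
        intro i j hij
        rw [V1186.HB.H5_eq, V1186.HB.H5_eq]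
        obtain ⟨p1, p2⟩ := V1186.HB.H5_pairs gsq (by linarith) hβ0 hβ1 i j hij
        constructor
        · rw [mul_comm μ, hγμ]; exact p1
        · rw [mul_comm L, hγL]; exact p2)
      exact ⟨f, hf, V1186.HB.x5 g, ⟨hstep, 0, 1, by
        change (1 : ℝ) ≠ 0; norm_num⟩,
        inj_period 5 (by norm_num) _ (V1186.HB.x5_inj (by linarith))⟩
    · rintro ⟨f, hf, x, hc, hp⟩
      refine noPatternGen hγ hμ hβ0 hβ1 ?_ (by norm_num) hf hc hp
      rw [hγμ]
      nlinarith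

end Pool.Agent.Results.MP_8c4df5_an.NoSortingPattern
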